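import Pool.Agent.Results.MP_801f88_co.CubicLogGrowth

/-!
# MP_801f88_co: the number of solutions of `A² = J` up to equivalence, explicit error terms

For all `c ≥ 3`:
`(c³ / 3) (log c - (1/2) log log c - 7) ≤ log N(c) ≤ c³ (log c + 1)`.
-/

set_option autoImplicit false

namespace Pool.Agent.Results.MP_801f88_co.ErrorTerms

open Pool.Agent.Results.MP_801f88_co.CubicLogGrowth

theorem sq_le_exp {L : ℝ} (hL : 0 ≤ L) : L ^ 2 ≤ Real.exp L := by
  have h := Real.quadratic_le_exp_of_nonneg (show (0 : ℝ) ≤ L / 2 by positivity)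
  have h1 : L ≤ Real.exp (L / 2) := by nlinarith [sq_nonneg (L - 2)]
  calc L ^ 2 ≤ (Real.exp (L / 2)) ^ 2 := pow_le_pow_left₀ hL h1 2
    _ = Real.exp L := by
        rw [sq, ← Real.exp_add]
        congr 1
        ring

theorem lower_all (c : ℕ) (hc : 3 ≤ c) :
    (c : ℝ) ^ 3 / 3 * (Real.log c - Real.log (Real.log c) / 2 - 7) ≤ Real.log (N c : ℝ) := by
  have hc3 : (3 : ℝ) ≤ c := by exact_mod_cast hc
  have hc0 : (0 : ℝ) < c := by linarith
  set L : ℝ := Real.log c with hLdef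
  have hcL : Real.exp L = c := by rw [hLdef, Real.exp_log hc0]
  have hL1 : 1 ≤ L := by
    rw [hLdef, Real.le_log_iff_exp_le hc0]
    have := Real.exp_one_lt_d9
    linarith
  have hLL : 0 ≤ Real.log L := Real.log_nonneg hL1
  have hN : 0 ≤ Real.log (N c : ℝ) := Real.log_nonneg (by exact_mod_cast N_pos c)
  by_cases hcase : L - Real.log L / 2 - 7 ≤ 0
  · refine le_trans ?_ hN
    exact mul_nonpos_of_nonneg_of_nonpos (by positivity) hcase
  rw [not_le] at hcase
  have hL7 : 7 < L := by linarith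
  set s : ℝ := Real.sqrt L with hs
  have hs0 : 0 ≤ s := Real.sqrt_nonneg L
  have hs2 : s ^ 2 = L := Real.sq_sqrt (by linarith)
  have hs26 : 2.6 ≤ s := by
    by_contra h
    rw [not_le] at h
    nlinarith
  have hs3 : s + 3 ≤ L := by nlinarith
  have hLc : L ^ 2 ≤ c := hcL ▸ sq_le_exp (by linarith)
  set g : ℕ := ⌈s⌉₊ with hg
  have hg1 : s ≤ g := Nat.le_ceil s
  have hg2 : (g : ℝ) ≤ s + 1 := (Nat.ceil_lt_add_one hs0).le
  have hg0 : (0 : ℝ) < g := by linarith
  have hgn : 1 ≤ g := by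
    have : 0 < g := by exact_mod_cast hg0
    omega
  have h2g : 2 * g ≤ c := by
    have : (2 : ℝ) * g ≤ c := by nlinarith
    exact_mod_cast this
  have hlog2g : Real.log (2 * g) ≤ 1.4 + Real.log L / 2 := by
    have h1 : (2 : ℝ) * g ≤ 4 * s := by linarith
    have h2 : Real.log (2 * g) ≤ Real.log (4 * s) := Real.log_le_log (by positivity) h1
    have h3 : Real.log (4 * s) = Real.log 4 + Real.log L / 2 := by
      rw [Real.log_mul (by norm_num) (by linarith), hs, Real.log_sqrt (by linarith)]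
    have h4 : Real.log 4 ≤ 1.4 := by
      have h5 : Real.log 4 = 2 * Real.log 2 := by
        rw [show (4 : ℝ) = 2 ^ 2 by norm_num, Real.log_pow]; norm_num
      have := Real.log_two_lt_d9
      rw [h5]; linarith
    linarith
  have hlogL : Real.log L ≤ L - 1 := Real.log_le_sub_one_of_pos (by linarith)
  have hlog2g0 : 0 ≤ Real.log (2 * g) := Real.log_nonneg (by linarith)
  have hK : Real.log (2 * g) + 1 ≤ L := by linarith
  have hmain := lower_log c g hgn h2g hK
  rw [← hLdef] at hmain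
  -- the three relative errors
  set a : ℝ := 1 / (g : ℝ) ^ 2 with ha
  set b : ℝ := (g : ℝ) / c with hb
  set e : ℝ := (Real.log (2 * g) + 1) / L with he
  have ha0 : 0 ≤ a := by positivity
  have hb0 : 0 ≤ b := by positivity
  have he0 : 0 ≤ e := by positivity
  have he1 : e ≤ 1 := (div_le_one (by linarith)).2 hK
  have haL : a * L ≤ 1 := by
    rw [ha, one_div, inv_mul_le_iff₀ (by positivity), mul_one, ← hs2]
    exact pow_le_pow_left₀ hs0 hg1 2
  have ha1 : a ≤ 1 := by nlinarith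
  have hbc : b * c = g := by rw [hb]; field_simp
  have hb1 : 3 * b ≤ 1 := by
    have : 3 * (g : ℝ) ≤ c := by nlinarith
    nlinarith
  have heL : e * L = Real.log (2 * g) + 1 := by rw [he]; field_simp
  have hbern : 1 - 3 * b ≤ (1 - b) ^ 3 := by
    have := one_add_mul_le_pow (show (-2 : ℝ) ≤ -b by linarith) 3
    have e1 : (1 + (3 : ℕ) * -b : ℝ) = 1 - 3 * b := by push_cast; ring
    have e2 : (1 + -b : ℝ) = 1 - b := by ring
    rwa [e1, e2] at this
  have hprod : 1 - a - 3 * b - e ≤ (1 - a) * (1 - b) ^ 3 * (1 - e) := by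
    have h1 : (1 - a) * (1 - 3 * b) ≤ (1 - a) * (1 - b) ^ 3 :=
      mul_le_mul_of_nonneg_left hbern (by linarith)
    have h2 : 1 - a - 3 * b ≤ (1 - a) * (1 - b) ^ 3 := by nlinarith [mul_nonneg ha0 hb0]
    have h3 : (1 - a - 3 * b) * (1 - e) ≤ (1 - a) * (1 - b) ^ 3 * (1 - e) :=
      mul_le_mul_of_nonneg_right h2 (by linarith)
    nlinarith [mul_nonneg ha0 he0, mul_nonneg hb0 he0]
  have hcoef : (1 - a - 3 * b - e) / 3 - 2 / (c : ℝ) ≤
      (1 - a) / 3 * (1 - b) ^ 3 * (1 - e) - 2 / (c : ℝ) := by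
    have : (1 - a) / 3 * (1 - b) ^ 3 * (1 - e) = (1 - a) * (1 - b) ^ 3 * (1 - e) / 3 := by ring
    rw [this]
    linarith
  have hcL0 : 0 ≤ (c : ℝ) ^ 3 * L := by positivity
  refine le_trans ?_ ((mul_le_mul_of_nonneg_right hcoef hcL0).trans hmain)
  -- expand
  have hexp : ((1 - a - 3 * b - e) / 3 - 2 / (c : ℝ)) * ((c : ℝ) ^ 3 * L) =
      (c : ℝ) ^ 3 / 3 * (L - a * L - e * L) - (b * c) * (c : ℝ) ^ 2 * L
        - 2 * (c : ℝ) ^ 2 * L := by
    field_simp
    ring
  rw [hexp, hbc, heL]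
  have h1 : ((g : ℝ) + 2) * L ≤ c := by
    calc ((g : ℝ) + 2) * L ≤ L * L := by
          apply mul_le_mul_of_nonneg_right _ (by linarith)
          linarith
      _ = L ^ 2 := by ring
      _ ≤ c := hLc
  have h2 : ((g : ℝ) + 2) * L * (c : ℝ) ^ 2 ≤ (c : ℝ) ^ 3 := by
    calc ((g : ℝ) + 2) * L * (c : ℝ) ^ 2 ≤ c * (c : ℝ) ^ 2 :=
          mul_le_mul_of_nonneg_right h1 (by positivity)
      _ = (c : ℝ) ^ 3 := by ring
  have h3 : L - Real.log L / 2 - 7 + 3 ≤ L - a * L - (Real.log (2 * g) + 1) := by linarith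
  have h4 : (c : ℝ) ^ 3 / 3 * (L - Real.log L / 2 - 7 + 3) ≤
      (c : ℝ) ^ 3 / 3 * (L - a * L - (Real.log (2 * g) + 1)) :=
    mul_le_mul_of_nonneg_left h3 (by positivity)
  nlinarith [h2, h4]

/-- **Explicit error terms.** For every `c ≥ 3`,
`(c ^ 3 / 3) (log c - (1/2) log log c - 7) ≤ log N(c) ≤ c ^ 3 (log c + 1)`. -/
theorem result (c : ℕ) (hc : 3 ≤ c) :
    (c : ℝ) ^ 3 / 3 * (Real.log c - Real.log (Real.log c) / 2 - 7) ≤ Real.log (N c : ℝ) ∧
      Real.log (N c : ℝ) ≤ (c : ℝ) ^ 3 * (Real.log c + 1) := by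
  refine ⟨lower_all c hc, ?_⟩
  have h := upper_log c (by omega)
  linarith

end Pool.Agent.Results.MP_801f88_co.ErrorTerms
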